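import Pool.Agent.Q42.RS.Sub

/-!
# The mean square of the Möbius function over random subsets of short windows
-/

set_option autoImplicit false

namespace Pool.Agent.Results.MP_0575cc_nt.RandomSubsets

open Finset

/-- the Möbius function -/
noncomputable def mu (n : ℕ) : ℝ := ((ArithmeticFunction.moebius n : ℤ) : ℝ)

/-- the mean square of the sums over the windows `[x, x + Y)` -/
noncomputable def V (X Y : ℕ) : ℝ := (1 / (X : ℝ)) * ∑ x ∈ Ico X (2 * X), (∑ b ∈ range Y, mu (x + b)) ^ 2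

/-- the mean square of the sums over the translates `x + A` of a set `A` -/
noncomputable def VA (X : ℕ) (A : Finset ℕ) : ℝ := (1 / (X : ℝ)) * ∑ x ∈ Ico X (2 * X), (∑ b ∈ A, mu (x + b)) ^ 2

/-- the mean square of the sums over the samples `x + a 1, ..., x + a H` of the windows `[x, x + Y)` -/
noncomputable def VS (X : ℕ) {Y H : ℕ} (a : Fin H → Fin Y) : ℝ :=
  (1 / (X : ℝ)) * ∑ x ∈ Ico X (2 * X), (∑ i, mu (x + a i)) ^ 2

open scoped Classical in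
/-- the number of subsets of `[0, Y)` with the property `P` -/
noncomputable def num (Y : ℕ) (P : Finset ℕ → Prop) : ℝ := (((range Y).powerset.filter P).card : ℝ)

open scoped Classical in
/-- the number of samples of length `H` of `[0, Y)` with the property `P` -/
noncomputable def numS (Y H : ℕ) (P : (Fin H → Fin Y) → Prop) : ℝ := ((univ.filter P).card : ℝ)

lemma V_nonneg (X Y : ℕ) : 0 ≤ V X Y := by
  unfold V
  positivity

lemma part1 (ε : ℝ) (hε : 0 < ε) : ∃ N₀ : ℕ, ∀ X Y H : ℕ, N₀ ≤ Y → Y ≤ X → 1 ≤ H →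
    numS Y H (fun a => ¬ |VS X a - (6 / Real.pi ^ 2 * H + ((H : ℝ) / Y) ^ 2 * V X Y)| ≤
      ε * (6 / Real.pi ^ 2 * H + ((H : ℝ) / Y) ^ 2 * V X Y)) ≤ ε * (Y : ℝ) ^ H := by
  have hq : (0 : ℝ) < 6 / Real.pi ^ 2 := by positivity
  have hpair := fun ε hε => Pool.Agent.Q42.RS.pair_of mu Pool.Agent.Q42.RS.mu_abs
    (by simpa only [mu, Complex.ofReal_intCast] using Pool.Agent.TH823.MRS.mu_E) ε hε
  obtain ⟨N₀, h1⟩ := Pool.Agent.Q42.RS.var_gen hq Pool.Agent.Q42.RS.mu_abs hpair Pool.Agent.Q42.RS.diag_mu ε hε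
  refine ⟨N₀, fun X Y H hY hYX hH => ?_⟩
  have h2 := h1 X Y H hY hYX hH
  have e : (H : ℝ) ^ 2 * (1 / (X : ℝ) * ∑ x ∈ Ico X (2 * X), Pool.Agent.Q42.RS.mn Pool.Agent.Q42.RS.mu Y x ^ 2) =
      ((H : ℝ) / Y) ^ 2 * V X Y := by
    unfold V Pool.Agent.Q42.RS.mn Pool.Agent.Q42.RS.S1
    simp_rw [div_pow]
    rw [← sum_div]
    change (H : ℝ) ^ 2 * (1 / (X : ℝ) * ((∑ x ∈ Ico X (2 * X), (∑ b ∈ range Y, mu (x + b)) ^ 2) / (Y : ℝ) ^ 2)) = _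
    ring
  rw [e] at h2
  unfold numS
  convert h2
  rfl

lemma part2 (ε : ℝ) (hε : 0 < ε) : ∃ N₀ : ℕ, ∀ X Y : ℕ, N₀ ≤ Y → Y ≤ X →
    num Y (fun A => ¬ |VA X A - (6 / Real.pi ^ 2 * Y + V X Y) / 4| ≤ ε * (6 / Real.pi ^ 2 * Y + V X Y)) ≤
      ε * (2 : ℝ) ^ Y := by
  have hq : (0 : ℝ) < 6 / Real.pi ^ 2 := by positivity
  have hpair := fun ε hε => Pool.Agent.Q42.RS.pair_of mu Pool.Agent.Q42.RS.mu_abs
    (by simpa only [mu, Complex.ofReal_intCast] using Pool.Agent.TH823.MRS.mu_E) ε hε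
  obtain ⟨N₀, h1⟩ := Pool.Agent.Q42.RS.sub_gen hq Pool.Agent.Q42.RS.mu_abs hpair Pool.Agent.Q42.RS.diag_mu ε hε
  refine ⟨N₀, fun X Y hY hYX => ?_⟩
  have h2 := h1 X Y hY hYX
  unfold num
  convert h2 <;> rfl

lemma num_mono {Y : ℕ} {P P' : Finset ℕ → Prop} (h : ∀ A, P A → P' A) : num Y P ≤ num Y P' := by
  classical
  unfold num
  apply Nat.cast_le.2
  apply card_le_card
  intro A hA
  rw [mem_filter] at hA ⊢
  exact ⟨hA.1, h A hA.2⟩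

lemma q_le : 6 / Real.pi ^ 2 ≤ 1 := by
  rw [div_le_one (by positivity)]
  nlinarith [Real.pi_gt_three]

lemma part3 (ε : ℝ) (hε : 0 < ε) : ∃ δ : ℝ, 0 < δ ∧ ∃ N₀ : ℕ, ∀ X Y : ℕ, N₀ ≤ Y → Y ≤ X →
    (|V X Y - 6 / Real.pi ^ 2 * Y| ≤ δ * Y →
      num Y (fun A => ¬ |VA X A - 6 / Real.pi ^ 2 * (Y / 2)| ≤ ε * Y) ≤ ε * (2 : ℝ) ^ Y) ∧
    (ε * (2 : ℝ) ^ Y ≤ num Y (fun A => |VA X A - 6 / Real.pi ^ 2 * (Y / 2)| ≤ δ * Y) →
      |V X Y - 6 / Real.pi ^ 2 * Y| ≤ ε * Y) := by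
  classical
  set q := 6 / Real.pi ^ 2 with hq
  have hq0 : 0 < q := by positivity
  have hq1 : q ≤ 1 := q_le
  set ε' := min (ε / 50) (1 / 8) with hε'
  have hε'0 : 0 < ε' := by positivity
  have hε'1 : ε' ≤ ε / 50 := min_le_left _ _
  have hε'2 : ε' ≤ 1 / 8 := min_le_right _ _
  obtain ⟨N₀, h2⟩ := part2 ε' hε'0
  refine ⟨min (ε / 50) (1 / 8), hε'0, N₀ + 1, fun X Y hY hYX => ?_⟩
  rw [← hε']
  have hY0 : (0 : ℝ) < Y := by exact_mod_cast (by omega : 0 < Y)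
  have h3 := h2 X Y (by omega) hYX
  rw [← hq] at h3
  have hV := V_nonneg X Y
  have h2Y : (0 : ℝ) < 2 ^ Y := by positivity
  constructor
  · intro hVY
    refine le_trans ?_ (h3.trans (mul_le_mul_of_nonneg_right (by linarith : ε' ≤ ε) h2Y.le))
    refine num_mono fun A hA hA2 => hA ?_
    rw [abs_le] at hVY hA2 ⊢
    have h4 : ε' * (q * Y + V X Y) ≤ ε / 50 * (3 * Y) := by
      apply mul_le_mul hε'1 _ (by positivity) (by positivity)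
      nlinarith
    constructor <;> nlinarith
  · intro hnum
    -- some subset has both properties
    obtain ⟨A, hA1, hA2⟩ : ∃ A : Finset ℕ, |VA X A - q * (Y / 2)| ≤ ε' * Y ∧
        |VA X A - (q * Y + V X Y) / 4| ≤ ε' * (q * Y + V X Y) := by
      by_contra hno
      push Not at hno
      have h5 : num Y (fun A => |VA X A - q * (Y / 2)| ≤ ε' * Y) ≤
          num Y (fun A => ¬ |VA X A - (q * Y + V X Y) / 4| ≤ ε' * (q * Y + V X Y)) :=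
        num_mono fun A hA => not_le.2 (hno A hA)
      have h6 := (hnum.trans h5).trans h3
      have h7 : ε' < ε := by linarith
      nlinarith
    rw [abs_le] at hA1 hA2 ⊢
    have h8 : ε' * (q * Y + V X Y) ≤ 1 / 8 * (q * Y + V X Y) := mul_le_mul_of_nonneg_right hε'2 (by positivity)
    have h9 : ε' * Y ≤ 1 / 8 * Y := mul_le_mul_of_nonneg_right hε'2 hY0.le
    have hqY : q * Y ≤ Y := by nlinarith
    have h10 : q * Y + V X Y ≤ 6 * Y := by linarith [hA1.2, hA2.1]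
    have h11 : ε' * (q * Y + V X Y) ≤ ε / 50 * (6 * Y) := mul_le_mul hε'1 h10 (by positivity) (by positivity)
    have h12 : ε' * Y ≤ ε / 50 * Y := mul_le_mul_of_nonneg_right hε'1 hY0.le
    have h13 : 0 < ε * Y := by positivity
    constructor <;> linarith [hA1.1, hA1.2, hA2.1, hA2.2]

theorem result :
    (∀ ε : ℝ, 0 < ε → ∃ N₀ : ℕ, ∀ X Y H : ℕ, N₀ ≤ Y → Y ≤ X → 1 ≤ H →
      numS Y H (fun a => ¬ |VS X a - (6 / Real.pi ^ 2 * H + ((H : ℝ) / Y) ^ 2 * V X Y)| ≤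
        ε * (6 / Real.pi ^ 2 * H + ((H : ℝ) / Y) ^ 2 * V X Y)) ≤ ε * (Y : ℝ) ^ H) ∧
    (∀ ε : ℝ, 0 < ε → ∃ N₀ : ℕ, ∀ X Y : ℕ, N₀ ≤ Y → Y ≤ X →
      num Y (fun A => ¬ |VA X A - (6 / Real.pi ^ 2 * Y + V X Y) / 4| ≤ ε * (6 / Real.pi ^ 2 * Y + V X Y)) ≤
        ε * (2 : ℝ) ^ Y) ∧
    (∀ ε : ℝ, 0 < ε → ∃ δ : ℝ, 0 < δ ∧ ∃ N₀ : ℕ, ∀ X Y : ℕ, N₀ ≤ Y → Y ≤ X →
      (|V X Y - 6 / Real.pi ^ 2 * Y| ≤ δ * Y →
        num Y (fun A => ¬ |VA X A - 6 / Real.pi ^ 2 * (Y / 2)| ≤ ε * Y) ≤ ε * (2 : ℝ) ^ Y) ∧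
      (ε * (2 : ℝ) ^ Y ≤ num Y (fun A => |VA X A - 6 / Real.pi ^ 2 * (Y / 2)| ≤ δ * Y) →
        |V X Y - 6 / Real.pi ^ 2 * Y| ≤ ε * Y)) :=
  ⟨part1, part2, part3⟩

end Pool.Agent.Results.MP_0575cc_nt.RandomSubsets
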