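import Pool.Agent.H127.GV.Scales

/-!
# MP_0575cc_nt: the variance asymptotics for Möbius sums in short intervals depends only on thin sets of lengths
and of scales

The conjecture of Good and Churchhouse (Q1) asserts that the mean square `V(X;H)` of `M(x;H)` over `[X, 2X]` is
asymptotic to `H/ζ(2)` as `X → ∞`, for ALL length functions `H(X)` with `X^ε < H(X) < X^(1-ε)`.  We prove that it
suffices to know this along any set `T` of scales `X` whose ratios of consecutive elements tend to `1`, and for the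
lengths in a thin set `S`:

1. in any set `S` which, for some `c > 0`, meets each interval `[y - y^(1-c), y]`, `y` large;
2. for example: along the scales `X = exp(√j)`, `j = 0, 1, 2, …`, and for the lengths which are perfect `m`-th powers
   of integers, for any one `m ≥ 1`;
3. in the complement of any set `E` which fills at most a proportion `θ < 1/2` of the intervals `[y - δ y, y]`
   (for each fixed `δ`, `y` large).

Nothing is assumed on short windows or on short edges: that both are negligible is deduced, by induction, from the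
asymptotics for the lengths in `S` at the scales in `T`.
-/

set_option autoImplicit false

namespace Pool.Agent.Results.MP_0575cc_nt.VarianceThinLengths

open MeasureTheory Filter Topology Set

/-- `M(x;H)`, the sum of `μ(n)` over the `n` with `|n - x| < H/2` (for `x, H > 0` these are at most `⌈x + H⌉`). -/
noncomputable def M (x H : ℝ) : ℝ :=
  ∑ n ∈ (Finset.range (⌈x + H⌉₊ + 1)).filter (fun n : ℕ => |(n : ℝ) - x| < H / 2),
    ((ArithmeticFunction.moebius n : ℤ) : ℝ)

/-- the mean square of `M(x;H)` over `[X, 2X]` -/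
noncomputable def V (X H : ℝ) : ℝ := (1 / X) * ∫ x in X..2 * X, (M x H) ^ 2

/-- the variance asymptotics `V(X;H(X)) ∼ H(X)/ζ(2)` for `X → ∞` through the set `T` -/
def VarLaw (T : Set ℝ) (H : ℝ → ℝ) : Prop :=
  Tendsto (fun X => V X (H X) / (H X / (Real.pi ^ 2 / 6))) (atTop ⊓ 𝓟 T) (𝓝 1)

/-- **Q1**: the variance asymptotics, for `X → ∞`, for all `H` with `X^ε < H(X) < X^(1-ε)` -/
def GoodChurchhouse : Prop :=
  ∀ ε : ℝ, 0 < ε → ∀ H : ℝ → ℝ, (∀ᶠ X in atTop, X ^ ε < H X ∧ H X < X ^ (1 - ε)) →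
    Tendsto (fun X => V X (H X) / (H X / (Real.pi ^ 2 / 6))) atTop (𝓝 1)

/-- the variance asymptotics for `X → ∞` through `T`, for all these `H` with `H(X) ∈ S` for all large `X` -/
def LawOn (T S : Set ℝ) : Prop :=
  ∀ ε : ℝ, 0 < ε → ∀ H : ℝ → ℝ, (∀ᶠ X in atTop, X ^ ε < H X ∧ H X < X ^ (1 - ε)) →
    (∀ᶠ X in atTop, H X ∈ S) → VarLaw T H

/-- for each `δ > 0` the set `T` meets all the intervals `[X, (1+δ)X]`, `X` large -/
def Scales (T : Set ℝ) : Prop :=
  ∀ δ : ℝ, 0 < δ → ∀ᶠ X : ℝ in atTop, ∃ Z ∈ T, X ≤ Z ∧ Z ≤ (1 + δ) * X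

/-- the set `S` meets all the intervals `[y - y^(1-c), y]`, `y` large -/
def Gaps (c : ℝ) (S : Set ℝ) : Prop :=
  ∀ᶠ y : ℝ in atTop, ∃ h ∈ S, y - y ^ (1 - c) ≤ h ∧ h ≤ y

/-- for each `δ ∈ (0, 1)` the set `E` fills at most the proportion `θ` of each of the intervals `[y - δ y, y]`,
`y` large -/
def Sparse (θ : ℝ) (E : Set ℝ) : Prop :=
  ∀ δ : ℝ, 0 < δ → δ < 1 → ∀ᶠ y : ℝ in atTop,
    volume (E ∩ Icc (y - δ * y) y) ≤ ENNReal.ofReal (θ * (δ * y))

theorem M_eq {x H : ℝ} (hH : 0 ≤ H) : M x H = Pool.Agent.H127.GL.M x H := by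
  rw [Pool.Agent.H127.GL.M_eq (N := ⌈x + H⌉₊ + 1) hH (by
    have := Nat.floor_le_ceil (x + H); omega)]
  exact Finset.sum_filter _ _

theorem V_eq {X H : ℝ} (hH : 0 ≤ H) :
    V X H / (H / (Real.pi ^ 2 / 6)) = Pool.Agent.H127.GV.U X H := by
  unfold V Pool.Agent.H127.GV.U Pool.Agent.H127.GV.I
  congr 2
  apply intervalIntegral.integral_congr
  intro x _
  show M x H ^ 2 = Pool.Agent.H127.GL.M x H ^ 2
  rw [M_eq hH]

theorem ev_eq {ε : ℝ} {H : ℝ → ℝ} (hH : ∀ᶠ X in atTop, X ^ ε < H X ∧ H X < X ^ (1 - ε)) :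
    (fun X => V X (H X) / (H X / (Real.pi ^ 2 / 6))) =ᶠ[atTop]
      (fun X => Pool.Agent.H127.GV.U X (H X)) := by
  filter_upwards [hH, eventually_gt_atTop 0] with X h1 hX
  exact V_eq (le_trans (Real.rpow_nonneg hX.le _) h1.1.le)

theorem lawOn_iff (T S : Set ℝ) : LawOn T S ↔ Pool.Agent.H127.GV.LawT T S := by
  constructor
  · intro h ε hε H hH hHS
    exact (tendsto_congr' ((ev_eq hH).filter_mono inf_le_left)).1 (h ε hε H hH hHS)
  · intro h ε hε H hH hHS
    exact (tendsto_congr' ((ev_eq hH).filter_mono inf_le_left)).2 (h ε hε H hH hHS)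

theorem good_iff : GoodChurchhouse ↔ Pool.Agent.H127.GV.LawU univ := by
  constructor
  · intro h ε hε H hH _
    exact (tendsto_congr' (ev_eq hH)).1 (h ε hε H hH)
  · intro h ε hε H hH
    exact (tendsto_congr' (ev_eq hH)).2 (h ε hε H hH (Eventually.of_forall fun _ => mem_univ _))

/-- **The variance asymptotics for Möbius sums in short intervals depends only on thin sets of lengths and scales.** -/
theorem result :
    (∀ (T S : Set ℝ) (c : ℝ), Scales T → 0 < c → Gaps c S → (LawOn T S ↔ GoodChurchhouse)) ∧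
    (∀ m : ℕ, 1 ≤ m →
      (LawOn {y : ℝ | ∃ j : ℕ, y = Real.exp √(j : ℝ)} {y : ℝ | ∃ j : ℕ, y = (j : ℝ) ^ m} ↔
        GoodChurchhouse)) ∧
    (∀ (T E : Set ℝ) (θ : ℝ), Scales T → 0 ≤ θ → θ < 1 / 2 → Sparse θ E →
      (LawOn T Eᶜ ↔ GoodChurchhouse)) := by
  refine ⟨fun T S c hT hc hS => ?_, fun m hm => ?_, fun T E θ hT h0 h1 hE => ?_⟩
  · rw [lawOn_iff, good_iff]
    exact Pool.Agent.H127.GV.lawT_iff_of_gaps hT hc hS
  · have hm0 : (0 : ℝ) < m := by exact_mod_cast hm
    rw [lawOn_iff, good_iff]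
    exact Pool.Agent.H127.GV.lawT_iff_of_gaps Pool.Agent.H127.GV.scales_exp
      (c := 1 / (2 * (m : ℝ))) (by positivity) (Pool.Agent.H127.GV.gapsF_pow hm)
  · rw [lawOn_iff, good_iff]
    exact Pool.Agent.H127.GV.lawT_iff_of_sparse hT h0 h1 hE

end Pool.Agent.Results.MP_0575cc_nt.VarianceThinLengths
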